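import Pool.Agent.AT10.Stmts1

/-!
# Squad AT10, row PDC: decomposition into primitive idempotents
-/

open scoped BigOperators

noncomputable section

namespace Pool.Agent.PP.T10.H86

open Pool.Agent.Helper51_AWC Pool.Agent.Helper79_WRA Pool.Agent.PP Pool.Agent.PP.KF
open Pool.Agent.PP.K9 Pool.Agent.PP.K9.H97 Pool.Agent.PP.H75 Pool.Agent.PP.T3 Pool.Agent.PP.T2

section ring

variable {F A : Type} [Field F] [Ring A] [Algebra F A] [FiniteDimensional F A]

theorem dim_lt {i j : A} (hi : i * i = i) (hj : j * j = j) (h1 : i * j = j) (h2 : j * i = j)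
    (hne : j ≠ i) : Module.finrank F (LinearMap.range (LinearMap.mulLeft F j)) <
      Module.finrank F (LinearMap.range (LinearMap.mulLeft F i)) := by
  apply Submodule.finrank_lt_finrank_of_lt
  refine lt_of_le_of_ne ?_ ?_
  · rintro _ ⟨y, rfl⟩
    refine ⟨j * y, ?_⟩
    rw [LinearMap.mulLeft_apply, LinearMap.mulLeft_apply, ← mul_assoc, h1]
  · intro h
    have h3 : i ∈ LinearMap.range (LinearMap.mulLeft F j) := by
      rw [h]
      exact ⟨i, by rw [LinearMap.mulLeft_apply, hi]⟩
    obtain ⟨y, hy⟩ := h3
    rw [LinearMap.mulLeft_apply] at hy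
    apply hne
    calc j = j * i := h2.symm
      _ = j * (j * y) := by rw [hy]
      _ = (j * j) * y := (mul_assoc _ _ _).symm
      _ = j * y := by rw [hj]
      _ = i := hy

omit [FiniteDimensional F A] in
theorem mul_sum_self {m : ℕ} {k : Fin m → A} (hk : ∀ a, k a * k a = k a)
    (ho : ∀ a b, a ≠ b → k a * k b = 0) (a : Fin m) :
    k a * (∑ b, k b) = k a ∧ (∑ b, k b) * k a = k a := by
  constructor
  · rw [Finset.mul_sum, Finset.sum_eq_single a (fun b _ hb => ho a b (Ne.symm hb))
      (fun h => absurd (Finset.mem_univ _) h), hk]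
  · rw [Finset.sum_mul, Finset.sum_eq_single a (fun b _ hb => ho b a hb)
      (fun h => absurd (Finset.mem_univ _) h), hk]

/-- decomposition in a ring -/
theorem decomp (S : AddSubgroup A) : ∀ (n : ℕ) (i : A),
    Module.finrank F (LinearMap.range (LinearMap.mulLeft F i)) = n → i * i = i → i ∈ S →
    ∃ (m : ℕ) (k : Fin m → A), (∀ a, k a * k a = k a ∧ k a ∈ S ∧ k a ≠ 0 ∧
      ∀ j ∈ S, j * j = j → k a * j = j → j * k a = j → j = 0 ∨ j = k a) ∧
      (∀ a b, a ≠ b → k a * k b = 0) ∧ ∑ a, k a = i := by
  intro n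
  induction n using Nat.strong_induction_on with
  | _ n ih =>
    intro i hn hi hiS
    by_cases h0 : i = 0
    · refine ⟨0, Fin.elim0, fun a => a.elim0, fun a => a.elim0, ?_⟩
      rw [Finset.univ_eq_empty, Finset.sum_empty, h0]
    by_cases hp : ∀ j ∈ S, j * j = j → i * j = j → j * i = j → j = 0 ∨ j = i
    · refine ⟨1, fun _ => i, fun _ => ⟨hi, hiS, h0, hp⟩, ?_, ?_⟩
      · intro a b hab
        exact absurd (Subsingleton.elim a b) hab
      · rw [Fin.sum_univ_one]
    · push Not at hp
      obtain ⟨j, hjS, hj, h1, h2, hj0, hji⟩ := hp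
      have hd : (i - j) * (i - j) = i - j := by
        rw [sub_mul, mul_sub, mul_sub, hi, h1, h2, hj]
        abel
      have hd1 : i * (i - j) = i - j := by rw [mul_sub, hi, h1]
      have hd2 : (i - j) * i = i - j := by rw [sub_mul, hi, h2]
      have hdne : i - j ≠ i := by
        intro h
        apply hj0
        have h3 : i - j - i = 0 := by rw [h, sub_self]
        have h4 : -j = 0 := by rw [← h3]; abel
        exact neg_eq_zero.1 h4
      obtain ⟨m₁, k₁, hk₁, ho₁, hs₁⟩ := ih _ (by rw [← hn]; exact dim_lt (F := F) hi hj h1 h2 hji)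
        j rfl hj hjS
      obtain ⟨m₂, k₂, hk₂, ho₂, hs₂⟩ := ih _ (by
        rw [← hn]; exact dim_lt (F := F) hi hd hd1 hd2 hdne) (i - j) rfl hd (S.sub_mem hiS hjS)
      have hj1 : j * (i - j) = 0 := by rw [mul_sub, h2, hj, sub_self]
      have hj2 : (i - j) * j = 0 := by rw [sub_mul, h1, hj, sub_self]
      have e1 : ∀ a b, k₁ a * k₂ b = 0 := by
        intro a b
        have e2 := (mul_sum_self (fun a => (hk₁ a).1) ho₁ a).1
        have e3 := (mul_sum_self (fun a => (hk₂ a).1) ho₂ b).2
        rw [hs₁] at e2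
        rw [hs₂] at e3
        rw [← e2, ← e3]
        calc k₁ a * j * ((i - j) * k₂ b) = k₁ a * (j * (i - j)) * k₂ b := by noncomm_ring
          _ = 0 := by rw [hj1, mul_zero, zero_mul]
      have e4 : ∀ a b, k₂ b * k₁ a = 0 := by
        intro a b
        have e2 := (mul_sum_self (fun a => (hk₁ a).1) ho₁ a).2
        have e3 := (mul_sum_self (fun a => (hk₂ a).1) ho₂ b).1
        rw [hs₁] at e2
        rw [hs₂] at e3
        rw [← e2, ← e3]
        calc k₂ b * (i - j) * (j * k₁ a) = k₂ b * ((i - j) * j) * k₁ a := by noncomm_ring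
          _ = 0 := by rw [hj2, mul_zero, zero_mul]
      refine ⟨m₁ + m₂, Fin.append k₁ k₂, ?_, ?_, ?_⟩
      · intro a
        induction a using Fin.addCases with
        | left a =>
          rw [Fin.append_left]
          exact hk₁ a
        | right a =>
          rw [Fin.append_right]
          exact hk₂ a
      · intro a b
        induction a using Fin.addCases with
        | left a =>
          induction b using Fin.addCases with
          | left b =>
            intro hab
            rw [Fin.append_left, Fin.append_left]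
            exact ho₁ a b (fun h => hab (by rw [h]))
          | right b =>
            intro _
            rw [Fin.append_left, Fin.append_right]
            exact e1 a b
        | right a =>
          induction b using Fin.addCases with
          | left b =>
            intro _
            rw [Fin.append_left, Fin.append_right]
            exact e4 b a
          | right b =>
            intro hab
            rw [Fin.append_right, Fin.append_right]
            exact ho₂ a b (fun h => hab (by rw [h]))
      · rw [Fin.sum_univ_add]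
        simp only [Fin.append_left, Fin.append_right]
        rw [hs₁, hs₂]
        abel

end ring

theorem pdc : PdcStmt := by
  intro F _ G _ _ P i hi hiP
  have hfd : FiniteDimensional F (MonoidAlgebra F G) :=
    Module.Finite.equiv (maL : (G → F) ≃ₗ[F] MonoidAlgebra F G)
  let S : AddSubgroup (MonoidAlgebra F G) :=
    { carrier := {x | ∃ f : G → F, (∀ v ∈ P, ∀ x, f (v * x * v⁻¹) = f x) ∧ ma f = x}
      add_mem' := by
        rintro _ _ ⟨f, hf, rfl⟩ ⟨g, hg, rfl⟩
        exact ⟨f + g, fun v hv x => by rw [Pi.add_apply, Pi.add_apply, hf v hv, hg v hv],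
          ma_add f g⟩
      zero_mem' := ⟨0, fun _ _ _ => rfl, ma_zero⟩
      neg_mem' := by
        rintro _ ⟨f, hf, rfl⟩
        exact ⟨-f, fun v hv x => by rw [Pi.neg_apply, Pi.neg_apply, hf v hv], map_neg maL f⟩ }
  obtain ⟨m, k, hk, ho, hs⟩ := decomp (F := F) S _ (ma i) rfl (by rw [← ma_mul, hi])
    ⟨i, hiP, rfl⟩
  obtain ⟨f, hf⟩ : ∃ f : Fin m → G → F, ∀ a, (∀ v ∈ P, ∀ x, f a (v * x * v⁻¹) = f a x) ∧
      ma (f a) = k a := by
    choose f hf using fun a => (hk a).2.1
    exact ⟨f, hf⟩
  refine ⟨m, f, ?_, ?_, ?_⟩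
  · intro a
    obtain ⟨h1, -, h3, h4⟩ := hk a
    rw [← (hf a).2] at h1 h3 h4
    refine ⟨?_, (hf a).1, ?_, ?_⟩
    · apply ma_injective
      rw [ma_mul, h1]
    · rintro h
      apply h3
      rw [h, ma_zero]
    · intro j hj hjP hj1 hj2
      rcases h4 (ma j) ⟨j, hjP, rfl⟩ (by rw [← ma_mul, hj]) (by rw [← ma_mul, hj1])
        (by rw [← ma_mul, hj2]) with h | h
      · left
        apply ma_injective
        rw [h, ma_zero]
      · right
        exact ma_injective h
  · intro a b hab
    apply ma_injective
    rw [ma_mul, (hf a).2, (hf b).2, ho a b hab, ma_zero]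
  · apply ma_injective
    rw [ma_sum, ← hs]
    exact Finset.sum_congr rfl fun a _ => (hf a).2

end Pool.Agent.PP.T10.H86
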