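import Pool.Agent.AT10.Stmts1

/-!
# Squad AT10, row RTR: functions which vanish on the centraliser are sums of traces
-/

open scoped BigOperators

noncomputable section

namespace Pool.Agent.PP.T10.H86

open Pool.Agent.Helper51_AWC Pool.Agent.Helper79_WRA Pool.Agent.PP Pool.Agent.PP.KF
open Pool.Agent.PP.K9 Pool.Agent.PP.K9.H97 Pool.Agent.PP.H75 Pool.Agent.PP.T3 Pool.Agent.PP.T2

/-- a proper subgroup of a group of prime power order is contained in a normal subgroup of index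
`ℓ` -/
theorem exists_index (ℓ : ℕ) [hℓ : Fact ℓ.Prime] (P : Type) [Group P] [Finite P]
    (hP : IsPGroup ℓ P) (R : Subgroup P) (hR : R ≠ ⊤) :
    ∃ Q : Subgroup P, R ≤ Q ∧ Q.index = ℓ ∧ Q.Normal := by
  obtain ⟨n, hn⟩ := IsPGroup.iff_card.1 hP
  obtain ⟨k, hk⟩ := IsPGroup.iff_card.1 (hP.to_subgroup R)
  have hkn : k < n := by
    have h1 : Nat.card R < Nat.card P := by
      refine lt_of_le_of_ne (Subgroup.card_le_card_group R) ?_
      intro h
      exact hR (Subgroup.eq_top_of_card_eq R h)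
    rw [hn, hk] at h1
    exact (Nat.pow_lt_pow_iff_right hℓ.out.one_lt).1 h1
  obtain ⟨m, rfl⟩ : ∃ m, n = m + 1 := ⟨n - 1, by omega⟩
  obtain ⟨Q, hQ, hRQ⟩ := Sylow.exists_subgroup_card_pow_prime_le (G := P) ℓ (n := k) (m := m)
    (by rw [hn]; exact pow_dvd_pow ℓ (by omega)) R hk (by omega)
  have hidx : Q.index = ℓ := by
    have h1 := Q.card_mul_index
    rw [hQ, hn, pow_succ] at h1
    exact Nat.eq_of_mul_eq_mul_left (pow_pos hℓ.out.pos m) h1
  refine ⟨Q, hRQ, hidx, ?_⟩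
  apply Subgroup.normal_of_index_eq_minFac_card
  rw [hidx, hn, Nat.Prime.pow_minFac hℓ.out (by omega)]

section one

variable {F : Type} [Field F] {G : Type} [Group G] [Finite G]

/-- the indicator function of an orbit is a trace -/
theorem one_orbit (ℓ : ℕ) [hℓ : Fact ℓ.Prime] (P : Subgroup G) (hP : IsPGroup ℓ P) (g₀ : G)
    (hg₀ : g₀ ∉ Subgroup.centralizer (P : Set G)) (c : F) :
    ∃ (Q : Subgroup G) (u : G) (a : G → F), (Q ≤ P ∧ Q.relIndex P = ℓ ∧ u ∈ P ∧ u ∉ Q ∧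
      ∀ v ∈ Q, ∀ g, a (v * g * v⁻¹) = a g) ∧
      ∀ g, (∑ j ∈ Finset.range ℓ, cj (u ^ j) a) g =
        open Classical in if ∃ v ∈ P, g = v * g₀ * v⁻¹ then c else 0 := by
  classical
  have hR : (Subgroup.centralizer ({g₀} : Set G)).subgroupOf P ≠ ⊤ := by
    intro h
    apply hg₀
    rw [Subgroup.mem_centralizer_iff]
    intro v hv
    have h1 : (⟨v, hv⟩ : P) ∈ (Subgroup.centralizer ({g₀} : Set G)).subgroupOf P := by
      rw [h]
      exact Subgroup.mem_top _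
    rw [Subgroup.mem_subgroupOf, Subgroup.mem_centralizer_singleton_iff] at h1
    exact h1
  obtain ⟨Q₀, hRQ, hidx, hQn⟩ := exists_index ℓ P hP _ hR
  have hQtop : Q₀ ≠ ⊤ := by
    intro h
    rw [h, Subgroup.index_top] at hidx
    exact hℓ.out.one_lt.ne hidx
  obtain ⟨u₀, hu₀⟩ : ∃ u₀ : P, u₀ ∉ Q₀ := by
    by_contra hcon
    push Not at hcon
    exact hQtop (eq_top_iff.2 fun x _ => hcon x)
  have hcard : Nat.card (P ⧸ Q₀) = ℓ := hidx
  have hu1 : ((u₀ : P) : P ⧸ Q₀) ≠ 1 := by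
    intro h
    exact hu₀ ((QuotientGroup.eq_one_iff u₀).1 h)
  have hord : orderOf ((u₀ : P) : P ⧸ Q₀) = ℓ := orderOf_eq_card_of_forall_mem_zpowers
    (fun x => mem_zpowers_of_prime_card hcard hu1) |>.trans hcard
  obtain ⟨Q, hQ⟩ : ∃ Q : Subgroup G, Q = Q₀.map P.subtype := ⟨_, rfl⟩
  have hQm : ∀ x : P, (x : G) ∈ Q ↔ x ∈ Q₀ := by
    intro x
    rw [hQ, Subgroup.mem_map]
    constructor
    · rintro ⟨y, hy, hyx⟩
      have : y = x := Subtype.ext hyx
      rwa [← this]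
    · intro h
      exact ⟨x, h, rfl⟩
  have hQP : Q ≤ P := by
    rw [hQ]
    rintro _ ⟨y, -, rfl⟩
    exact y.2
  obtain ⟨a, ha⟩ : ∃ a : G → F, a = fun g => if ∃ q ∈ Q, g = q * g₀ * q⁻¹ then c else 0 := ⟨_, rfl⟩
  refine ⟨Q, u₀, a, ⟨hQP, ?_, u₀.2, fun h => hu₀ ((hQm u₀).1 h), ?_⟩, ?_⟩
  · unfold Subgroup.relIndex
    have h1 : Q.subgroupOf P = Q₀ := by
      ext x
      rw [Subgroup.mem_subgroupOf]
      exact hQm x
    rw [h1, hidx]
  · intro v hv g
    rw [ha]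
    change (if ∃ q ∈ Q, v * g * v⁻¹ = q * g₀ * q⁻¹ then c else 0) =
      if ∃ q ∈ Q, g = q * g₀ * q⁻¹ then c else 0
    have h1 : (∃ q ∈ Q, v * g * v⁻¹ = q * g₀ * q⁻¹) ↔ ∃ q ∈ Q, g = q * g₀ * q⁻¹ := by
      constructor
      · rintro ⟨q, hq, h⟩
        refine ⟨v⁻¹ * q, mul_mem (inv_mem hv) hq, ?_⟩
        have h2 : g = v⁻¹ * (v * g * v⁻¹) * v := by group
        rw [h2, h]
        group
      · rintro ⟨q, hq, h⟩
        refine ⟨v * q, mul_mem hv hq, ?_⟩
        rw [h]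
        group
    exact if_congr h1 rfl rfl
  · intro g
    rw [Finset.sum_apply]
    have hcj : ∀ j : ℕ, cj ((u₀ : G) ^ j) a g =
        if ∃ q ∈ Q, g = ((u₀ : G) ^ j * q) * g₀ * ((u₀ : G) ^ j * q)⁻¹ then c else 0 := by
      intro j
      rw [ha]
      change (if ∃ q ∈ Q, ((u₀ : G) ^ j)⁻¹ * g * (u₀ : G) ^ j = q * g₀ * q⁻¹ then c else 0) = _
      have h1 : (∃ q ∈ Q, ((u₀ : G) ^ j)⁻¹ * g * (u₀ : G) ^ j = q * g₀ * q⁻¹) ↔
          ∃ q ∈ Q, g = ((u₀ : G) ^ j * q) * g₀ * ((u₀ : G) ^ j * q)⁻¹ := by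
        constructor
        · rintro ⟨q, hq, h⟩
          refine ⟨q, hq, ?_⟩
          have h2 : g = (u₀ : G) ^ j * (((u₀ : G) ^ j)⁻¹ * g * (u₀ : G) ^ j) * ((u₀ : G) ^ j)⁻¹ := by
            group
          rw [h2, h]
          group
        · rintro ⟨q, hq, h⟩
          refine ⟨q, hq, ?_⟩
          rw [h]
          group
      exact if_congr h1 rfl rfl
    by_cases hg : ∃ v ∈ P, g = v * g₀ * v⁻¹
    · rw [if_pos hg]
      obtain ⟨v, hv, hgv⟩ := hg
      -- the coset of `v`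
      obtain ⟨j₀, hj₀⟩ : ∃ j : ℕ, ((u₀ : P) : P ⧸ Q₀) ^ j = ((⟨v, hv⟩ : P) : P ⧸ Q₀) := by
        have h1 := mem_powers_of_prime_card (g' := ((⟨v, hv⟩ : P) : P ⧸ Q₀)) hcard hu1
        exact Submonoid.mem_powers_iff _ _ |>.1 h1
      obtain ⟨j, hj⟩ : ∃ j : ℕ, j = j₀ % ℓ := ⟨_, rfl⟩
      have hjl : j < ℓ := by
        rw [hj]
        exact Nat.mod_lt _ hℓ.out.pos
      have hj₁ : ((u₀ : P) : P ⧸ Q₀) ^ j = ((⟨v, hv⟩ : P) : P ⧸ Q₀) := by
        rw [← hj₀, hj]
        conv_lhs => rw [← hord]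
        exact pow_mod_orderOf _ _
      have hq : (u₀ ^ j)⁻¹ * (⟨v, hv⟩ : P) ∈ Q₀ := by
        rw [← QuotientGroup.mk_pow] at hj₁
        exact QuotientGroup.eq.1 hj₁
      rw [Finset.sum_eq_single j]
      · rw [hcj, if_pos]
        refine ⟨_, (hQm _).2 hq, ?_⟩
        change g = (u₀ : G) ^ j * (((u₀ : G) ^ j)⁻¹ * v) * g₀ *
          ((u₀ : G) ^ j * (((u₀ : G) ^ j)⁻¹ * v))⁻¹
        rw [mul_inv_cancel_left, hgv]
      · intro i hi hij
        rw [hcj, if_neg]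
        rintro ⟨q, hq', h⟩
        apply hij
        obtain ⟨q₀, rfl⟩ : ∃ q₀ : P, (q₀ : G) = q := ⟨⟨q, hQP hq'⟩, rfl⟩
        have hq₀ : q₀ ∈ Q₀ := (hQm q₀).1 hq'
        -- an element of `P` which commutes with `g₀`
        have h1 : (⟨v, hv⟩ : P)⁻¹ * (u₀ ^ i * q₀) ∈ Q₀ := by
          apply hRQ
          rw [Subgroup.mem_subgroupOf, Subgroup.mem_centralizer_singleton_iff]
          change (v⁻¹ * ((u₀ : G) ^ i * q₀)) * g₀ = g₀ * (v⁻¹ * ((u₀ : G) ^ i * q₀))
          have h2 : v * g₀ * v⁻¹ = ((u₀ : G) ^ i * q₀) * g₀ * ((u₀ : G) ^ i * q₀)⁻¹ := by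
            rw [← hgv, ← h]
          calc (v⁻¹ * ((u₀ : G) ^ i * q₀)) * g₀ = v⁻¹ *
                (((u₀ : G) ^ i * q₀) * g₀ * ((u₀ : G) ^ i * q₀)⁻¹) * ((u₀ : G) ^ i * q₀) := by group
            _ = v⁻¹ * (v * g₀ * v⁻¹) * ((u₀ : G) ^ i * q₀) := by rw [← h2]
            _ = g₀ * (v⁻¹ * ((u₀ : G) ^ i * q₀)) := by group
        have h3 : ((⟨v, hv⟩ : P) : P ⧸ Q₀) = ((u₀ ^ i * q₀ : P) : P ⧸ Q₀) := QuotientGroup.eq.2 h1
        rw [QuotientGroup.mk_mul, (QuotientGroup.eq_one_iff q₀).2 hq₀, mul_one,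
          QuotientGroup.mk_pow] at h3
        have h4 : ((u₀ : P) : P ⧸ Q₀) ^ i = ((u₀ : P) : P ⧸ Q₀) ^ j := by rw [hj₁, h3]
        have h5 := pow_injOn_Iio_orderOf (x := ((u₀ : P) : P ⧸ Q₀))
          (by rw [hord]; exact Finset.mem_range.1 hi) (by rw [hord]; exact hjl) h4
        exact h5
      · intro h
        exact absurd (Finset.mem_range.2 hjl) h
    · rw [if_neg hg]
      refine Finset.sum_eq_zero fun j _ => ?_
      rw [hcj, if_neg]
      rintro ⟨q, hq, h⟩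
      exact hg ⟨_, mul_mem (pow_mem u₀.2 j) (hQP hq), h⟩

end one

theorem rtr : RtrStmt := by
  intro ℓ hℓ F _ G _ _ P hP
  classical
  have := Fintype.ofFinite G
  -- induction on the support
  have key : ∀ (n : ℕ) (x : G → F), (Finset.univ.filter fun g => x g ≠ 0).card = n →
      (∀ v ∈ P, ∀ g, x (v * g * v⁻¹) = x g) →
      (∀ g ∈ Subgroup.centralizer (P : Set G), x g = 0) →
      ∃ (m : ℕ) (Q : Fin m → Subgroup G) (u : Fin m → G) (a : Fin m → G → F),
        (∀ k, Q k ≤ P ∧ (Q k).relIndex P = ℓ ∧ u k ∈ P ∧ u k ∉ Q k ∧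
          ∀ v ∈ Q k, ∀ g, a k (v * g * v⁻¹) = a k g) ∧
        x = ∑ k, ∑ j ∈ Finset.range ℓ, cj (u k ^ j) (a k) := by
    intro n
    induction n using Nat.strong_induction_on with
    | _ n ih =>
      intro x hxn hxi hxc
      by_cases hx : x = 0
      · refine ⟨0, Fin.elim0, Fin.elim0, Fin.elim0, fun k => k.elim0, ?_⟩
        rw [hx, Finset.univ_eq_empty, Finset.sum_empty]
      · obtain ⟨g₀, hg₀⟩ : ∃ g₀, x g₀ ≠ 0 := by
          by_contra hcon
          push Not at hcon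
          exact hx (funext hcon)
        have hg₀c : g₀ ∉ Subgroup.centralizer (P : Set G) := fun h => hg₀ (hxc g₀ h)
        obtain ⟨Q₁, u₁, a₁, hQ₁, hsum⟩ := one_orbit (F := F) ℓ P hP g₀ hg₀c (x g₀)
        obtain ⟨y, hy⟩ : ∃ y : G → F, y = ∑ j ∈ Finset.range ℓ, cj (u₁ ^ j) a₁ := ⟨_, rfl⟩
        rw [← hy] at hsum
        have hy1 : ∀ v ∈ P, y (v * g₀ * v⁻¹) = x g₀ := by
          intro v hv
          rw [hsum, if_pos ⟨v, hv, rfl⟩]
        have hy0 : ∀ g, (¬ ∃ v ∈ P, g = v * g₀ * v⁻¹) → y g = 0 := by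
          intro g hg
          rw [hsum, if_neg hg]
        have hdiff : ∀ g, (x - y) g ≠ 0 → x g ≠ 0 ∧ ¬ ∃ v ∈ P, g = v * g₀ * v⁻¹ := by
          intro g hg
          by_cases h : ∃ v ∈ P, g = v * g₀ * v⁻¹
          · exfalso
            apply hg
            obtain ⟨v, hv, rfl⟩ := h
            rw [Pi.sub_apply, hy1 v hv, hxi v hv, sub_self]
          · refine ⟨?_, h⟩
            rw [Pi.sub_apply, hy0 g h, sub_zero] at hg
            exact hg
        have hlt : (Finset.univ.filter fun g => (x - y) g ≠ 0).card < n := by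
          rw [← hxn]
          apply Finset.card_lt_card
          rw [Finset.ssubset_iff_of_subset]
          · refine ⟨g₀, Finset.mem_filter.2 ⟨Finset.mem_univ _, hg₀⟩, ?_⟩
            intro h
            exact (hdiff g₀ (Finset.mem_filter.1 h).2).2 ⟨1, P.one_mem, by group⟩
          · intro g hg
            exact Finset.mem_filter.2 ⟨Finset.mem_univ _, (hdiff g (Finset.mem_filter.1 hg).2).1⟩
        have hyi : ∀ v ∈ P, ∀ g, y (v * g * v⁻¹) = y g := by
          intro v hv g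
          by_cases h : ∃ w ∈ P, g = w * g₀ * w⁻¹
          · obtain ⟨w, hw, rfl⟩ := h
            have h2 : v * (w * g₀ * w⁻¹) * v⁻¹ = (v * w) * g₀ * (v * w)⁻¹ := by group
            rw [h2, hy1 _ (mul_mem hv hw), hy1 w hw]
          · rw [hy0 g h, hy0]
            rintro ⟨w, hw, h2⟩
            apply h
            refine ⟨v⁻¹ * w, mul_mem (inv_mem hv) hw, ?_⟩
            have h3 : g = v⁻¹ * (v * g * v⁻¹) * v := by group
            rw [h3, h2]
            group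
        have hyc : ∀ g ∈ Subgroup.centralizer (P : Set G), y g = 0 := by
          intro g hg
          apply hy0
          rintro ⟨v, hv, h⟩
          apply hg₀c
          have h2 := Subgroup.mem_centralizer_iff.1 hg v hv
          have h3 : g₀ = g := by
            calc g₀ = v⁻¹ * (v * g₀ * v⁻¹) * v := by group
              _ = v⁻¹ * g * v := by rw [← h]
              _ = v⁻¹ * (g * v) := by group
              _ = v⁻¹ * (v * g) := by rw [← h2]
              _ = g := by group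
          rw [h3]
          exact hg
        obtain ⟨m, Q, u, a, hQ, hxy⟩ := ih _ hlt (x - y) rfl
          (fun v hv g => by rw [Pi.sub_apply, Pi.sub_apply, hxi v hv, hyi v hv])
          (fun g hg => by rw [Pi.sub_apply, hxc g hg, hyc g hg, sub_zero])
        refine ⟨m + 1, Fin.cons Q₁ Q, Fin.cons u₁ u, Fin.cons a₁ a, ?_, ?_⟩
        · intro k
          induction k using Fin.cases with
          | zero => exact hQ₁
          | succ k => exact hQ k
        · rw [Fin.sum_univ_succ]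
          simp only [Fin.cons_zero, Fin.cons_succ]
          rw [← hxy, ← hy]
          abel
  intro x hxi hxc
  exact key _ x rfl hxi hxc

end Pool.Agent.PP.T10.H86
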