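import Pool.Agent.AT10.Stmts2
import Pool.Agent.Helper32_AT5.ZIM

/-!
# Squad AT10, row LCA: averages over a central subgroup
-/

open scoped BigOperators

noncomputable section

namespace Pool.Agent.PP.T10.H86

open Pool.Agent.Helper51_AWC Pool.Agent.Helper79_WRA Pool.Agent.PP Pool.Agent.PP.KF
open Pool.Agent.PP.K9 Pool.Agent.PP.K9.H97 Pool.Agent.PP.H75 Pool.Agent.PP.T3 Pool.Agent.PP.T2
open Pool.Agent.PP.T8 (rs pw fv rd Ip Rv)

section zi

variable {H : Type} [Group H] [Finite H]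

/-- the average of a virtual character is an integer -/
theorem avg_int {f : H → ℂ} (hf : f ∈ ZI H) :
    ∃ n : ℤ, (Nat.card H : ℂ)⁻¹ * ∑ᶠ u : H, f u = n := by
  have := Fintype.ofFinite H
  simp_rw [finsum_eq_sum_of_fintype]
  refine AddSubgroup.closure_induction
    (p := fun f _ => ∃ n : ℤ, (Nat.card H : ℂ)⁻¹ * ∑ u : H, f u = n)
    (fun χ hχ => ?_) ?_ (fun a b _ _ ha hb => ?_) (fun a _ ha => ?_) hf
  · obtain ⟨n, σ, -, rfl⟩ := hχ
    refine ⟨(Module.finrank ℂ σ.invariants : ℤ), ?_⟩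
    have h1 := Representation.card_inv_mul_sum_char_eq_finrank σ
    rw [Int.cast_natCast]
    exact h1
  · exact ⟨0, by simp⟩
  · obtain ⟨n, hn⟩ := ha
    obtain ⟨m, hm⟩ := hb
    refine ⟨n + m, ?_⟩
    simp only [Pi.add_apply, Finset.sum_add_distrib, mul_add]
    rw [hn, hm]
    push_cast
    ring
  · obtain ⟨n, hn⟩ := ha
    refine ⟨-n, ?_⟩
    simp only [Pi.neg_apply, Finset.sum_neg_distrib, mul_neg]
    rw [hn]
    push_cast
    ring

/-- a linear character is a virtual character -/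
theorem lin_mem (lam : H →* ℂ) : (fun u => lam u) ∈ ZI H := by
  let ρ : Representation ℂ H ℂ :=
    { toFun := fun u => lam u • LinearMap.id
      map_one' := by rw [map_one, one_smul]; rfl
      map_mul' := by
        intro x y
        ext
        simp [mul_comm] }
  have h1 := T5.H32.char_mem_ZI ρ
  have h2 : ρ.character = fun u => lam u := by
    funext u
    change LinearMap.trace ℂ ℂ (lam u • LinearMap.id) = lam u
    rw [map_smul, LinearMap.trace_id, Module.finrank_self]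
    simp
  rw [h2] at h1
  exact h1

/-- restriction -/
theorem res_mem {K : Type} [Group K] [Finite K] (φ : K →* H) {f : H → ℂ} (hf : f ∈ ZI H) :
    (fun u => f (φ u)) ∈ ZI K := by
  refine AddSubgroup.closure_induction (p := fun f _ => (fun u => f (φ u)) ∈ ZI K)
    (fun χ hχ => ?_) ?_ (fun a b _ _ ha hb => ?_) (fun a _ ha => ?_) hf
  · obtain ⟨n, σ, -, rfl⟩ := hχ
    have h1 := T5.H32.char_mem_ZI (σ.comp φ)
    exact h1
  · exact AddSubgroup.zero_mem _
  · exact AddSubgroup.add_mem _ ha hb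
  · exact AddSubgroup.neg_mem _ ha

end zi

theorem lca (hFCZ : FczStmt) (hZIM : T5.ZimStmt) : LcaStmt := by
  intro M _ G _ _ P P₀ hP i hi χ hχ lam κ hκ k hk
  have hi₀ : Ip M P₀ i := ⟨hi.rm, hi.id, fun v hv x => hi.iv v (hP hv) x⟩
  have h1 := hFCZ M G P₀ i hi₀ χ hχ
  have hkk : ∀ u, k u = Subgroup.inclusion hP u := fun u => Subtype.ext (hk u)
  have h2 := res_mem (Subgroup.inclusion hP) hκ
  have h3 := (hZIM P₀ _ (lin_mem lam) _ h1).1
  have h4 := (hZIM P₀ _ h3 _ h2).1
  obtain ⟨n, hn⟩ := avg_int h4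
  refine ⟨n, ?_⟩
  rw [← hn]
  congr 1
  refine finsum_congr fun u => ?_
  rw [hkk]

end Pool.Agent.PP.T10.H86
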